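import Mathlib
import Pool.Agent.H89R3.BK.Fin

/-!
# An inequality between the first two Betti numbers of Bloch-Kato Lie algebras

Every Bloch-Kato Lie algebra `L` of finite cohomological dimension `n`, over any field, satisfies
`0 ≤ (n - 1) * b₁(L)^2 - 2 * n * b₂(L)`.
-/

set_option autoImplicit false

open H89R3.BK in
theorem Pool.Agent.Results.MP_7e1e73_al.BettiInequality.result
    (K : Type) [Field K] (L : Type) [LieRing L] [LieAlgebra K L] (ℳ : ℕ → Submodule K L)
    (h : IsBlochKato K ℳ) (n : ℕ) (hn : HasCd K L n) :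
    FiniteDimensional K (Coh K L 1) ∧ FiniteDimensional K (Coh K L 2) ∧
      0 ≤ ((n : ℤ) - 1) * (betti K L 1 : ℤ) ^ 2 - 2 * (n : ℤ) * (betti K L 2 : ℤ) :=
  ⟨coh_finite h 0, coh_finite h 1, inequality h n hn⟩
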